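import Pool.Agent.N848.SK.Stm
import Pool.Agent.N701.AW.LAS

/-!
# Project SK (helper848), part L12: the laws of `E1` and `E2` (helper82)
-/

set_option autoImplicit false
set_option linter.unusedVariables false

open scoped Classical

namespace Pool.Agent.N82.SK

open Finset
open Pool.Agent.R426.QK
open Pool.Agent.N848.AW
open Pool.Agent.N848.AW.LAS
open Pool.Agent.N848.SK

section

variable {U J : Type} [Fintype U] [Fintype J]

lemma dt_add (f g x : U ⊕ J → ZMod 2) : dt univ (f + g) x = dt univ f x + dt univ g x := by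
  simp only [dt, Pi.add_apply, add_mul, sum_add_distrib]

lemma cst_iff' (x : U ⊕ J → ZMod 2) : Cst univ x ↔ x = 0 ∨ x = fun _ => 1 := by
  rw [cst_iff]
  have : (onev (fun _ => 1) : U ⊕ J → ZMod 2) = fun _ => 1 := by
    funext p; cases p <;> rfl
  rw [this]

lemma ex_of_ne {w : U → ZMod 2} (hw : w ≠ 0) : ∃ u, w u ≠ 0 := by
  by_contra hcon
  push Not at hcon
  exact hw (funext hcon)

variable (tU gU hU : U → ZMod 2) (tJ gJ hJ : J → ZMod 2) (A : U → U → ZMod 2)
  (B : U → J → ZMod 2)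

/-- the hypotheses for the first event -/
lemma hypF1 (h0 : ∑ u, tU u + ∑ j, tJ j = 0) (hg : ∑ u, gU u + ∑ j, gJ j = 1)
    (hA : ∀ u v, u ≠ v → A u v + A v u = tU u * tU v) (hnd : NdL tJ gJ hJ B) :
    HypF (Sum.elim tU tJ) (NN (MM tU tJ A B 0) 0 (Sum.elim gU gJ) (Sum.elim tU tJ))
      tJ gJ tJ := by
  have st : ∑ q : U ⊕ J, Sum.elim tU tJ q = 0 := by
    rw [Fintype.sum_sum_type]; exact h0
  have sg : ∑ q : U ⊕ J, Sum.elim gU gJ q = 1 := by
    rw [Fintype.sum_sum_type]; exact hg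
  refine ⟨?_, st, ?_⟩
  · refine hypG_NN tU tJ A B hA h0 _ _ _ _ _ ?_ ?_ ?_ ?_ ?_
    · intro p; rw [st]; simp
    · intro q; rw [sg]; simp
    · intro k l _
      simp only [Sum.elim_inr]
      ring
    · intro w hw
      obtain ⟨l, hl⟩ := hnd w (∑ u, w u * gU u) 0 0 (Or.inl (ex_of_ne hw))
      refine ⟨l, ?_⟩
      convert hl using 1
      simp only [Sum.elim_inl, Sum.elim_inr, mul_add, sum_add_distrib, sum_mul, zero_mul, add_zero,
        mul_assoc]
    · intro c hc
      obtain ⟨l, hl⟩ := hnd c (∑ u, c u * tU u) (∑ u, c u * tU u) 0 (Or.inl (ex_of_ne hc))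
      refine ⟨l, ?_⟩
      convert hl using 1
      simp only [Sum.elim_inl, Sum.elim_inr, add_mul, sum_add_distrib, sum_mul, zero_mul, add_zero]
      congr 1
      · congr 1
        · exact sum_congr rfl fun u _ => by ring
        · exact sum_congr rfl fun u _ => by ring
      · exact sum_congr rfl fun u _ => by ring
  · intro w e hwe
    have hwe' : (∃ u, w u ≠ 0) ∨ (∑ u, w u * gU u + e) ≠ 0 ∨ (0 : ZMod 2) ≠ 0 ∨
        (0 : ZMod 2) ≠ 0 := by
      by_cases hw : w = 0
      · right; left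
        rcases hwe with h | h
        · exact absurd hw h
        · subst hw
          simpa using h
      · exact Or.inl (ex_of_ne hw)
    obtain ⟨l, hl⟩ := hnd w (∑ u, w u * gU u + e) 0 0 hwe'
    refine ⟨l, ?_⟩
    convert hl using 1
    simp only [NN_inlr, MM, Sum.elim_inl, Sum.elim_inr, mul_add, add_mul, sum_add_distrib,
      sum_mul, zero_mul, add_zero, mul_assoc, add_assoc]

/-- the hypotheses for the second event -/
lemma hypF2 (h0 : ∑ u, tU u + ∑ j, tJ j = 0) (hg : ∑ u, gU u + ∑ j, gJ j = 1)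
    (hh : ∑ u, hU u + ∑ j, hJ j = 1)
    (hA : ∀ u v, u ≠ v → A u v + A v u = tU u * tU v) (hnd : NdL tJ gJ hJ B) :
    HypF (Sum.elim tU tJ + Sum.elim gU gJ + Sum.elim hU hJ)
      (NN (MM tU tJ A B 0) (Sum.elim tU tJ) (Sum.elim tU tJ) (Sum.elim tU tJ + Sum.elim gU gJ))
      tJ tJ gJ := by
  have st : ∑ q : U ⊕ J, Sum.elim tU tJ q = 0 := by
    rw [Fintype.sum_sum_type]; exact h0
  have sg : ∑ q : U ⊕ J, Sum.elim gU gJ q = 1 := by
    rw [Fintype.sum_sum_type]; exact hg
  have sh : ∑ q : U ⊕ J, Sum.elim hU hJ q = 1 := by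
    rw [Fintype.sum_sum_type]; exact hh
  have e1 : ∑ q : U ⊕ J, (Sum.elim tU tJ + Sum.elim gU gJ) q = 1 := by
    simp only [Pi.add_apply, sum_add_distrib, st, sg, zero_add]
  refine ⟨?_, ?_, ?_⟩
  · refine hypG_NN tU tJ A B hA h0 _ _ _ _ _ ?_ ?_ ?_ ?_ ?_
    · intro p; rw [e1, mul_one]; exact z2 _
    · intro q; rw [st]; simp
    · intro k l _
      simp only [Sum.elim_inr, Pi.add_apply]
      linear_combination z2 (tJ k * tJ l)
    · intro w hw
      obtain ⟨l, hl⟩ := hnd w (∑ u, w u * tU u) (∑ u, w u * tU u) 0 (Or.inl (ex_of_ne hw))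
      refine ⟨l, ?_⟩
      convert hl using 1
      simp only [Sum.elim_inl, Sum.elim_inr, Pi.add_apply, mul_add, sum_add_distrib, sum_mul,
        zero_mul, add_zero, mul_assoc, add_assoc]
    · intro c hc
      obtain ⟨l, hl⟩ := hnd c (∑ u, c u * gU u) 0 0 (Or.inl (ex_of_ne hc))
      refine ⟨l, ?_⟩
      convert hl using 1
      rw [sum_mul, zero_mul, zero_mul, add_zero, add_zero, ← sum_add_distrib]
      refine sum_congr rfl fun u _ => ?_
      simp only [Sum.elim_inl, Sum.elim_inr, Pi.add_apply]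
      linear_combination z2 (tU u * tJ l * c u)
  · simp only [Pi.add_apply, sum_add_distrib, st, sg, sh]
    decide
  · intro w e hwe
    have hwe' : (∃ u, w u ≠ 0) ∨ (∑ u, w u * tU u + e) ≠ 0 ∨ (∑ u, w u * tU u + e) ≠ 0 ∨
        e ≠ 0 := by
      by_cases hw : w = 0
      · right; right; right
        rcases hwe with h | h
        · exact absurd hw h
        · exact h
      · exact Or.inl (ex_of_ne hw)
    obtain ⟨l, hl⟩ := hnd w (∑ u, w u * tU u + e) (∑ u, w u * tU u + e) e hwe'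
    refine ⟨l, ?_⟩
    convert hl using 1
    have e2 : ∑ u, w u * NN (MM tU tJ A B 0) (Sum.elim tU tJ) (Sum.elim tU tJ)
        (Sum.elim tU tJ + Sum.elim gU gJ) (Sum.inl u) (Sum.inr l) =
        ∑ u, w u * B u l + (∑ u, w u * tU u) * (tJ l + gJ l) := by
      rw [sum_mul, ← sum_add_distrib]
      refine sum_congr rfl fun u _ => ?_
      rw [NN_inlr]
      simp only [MM, Sum.elim_inl, Sum.elim_inr, Pi.add_apply]
      ring
    rw [e2]
    simp only [Pi.add_apply, Sum.elim_inr]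
    ring

/-- translation of the first event -/
lemma iff1 (R : J → J → ZMod 2) :
    GdF (Sum.elim tU tJ) (NN (MM tU tJ A B 0) 0 (Sum.elim gU gJ) (Sum.elim tU tJ)) R ↔
      E1 (U ⊕ J) univ (MM tU tJ A B R) (Sum.elim tU tJ) (Sum.elim gU gJ) (Sum.elim hU hJ) := by
  unfold GdF E1
  refine forall_congr' fun x => ?_
  rw [cst_iff']
  have e1 : ∑ l, Sum.elim tU tJ l * x l = dt univ (Sum.elim tU tJ) x := rfl
  rw [e1]
  refine forall_congr' fun h => ?_
  simp only [rowG_NN, Pi.zero_apply, zero_mul, add_zero, mem_univ, true_imp_iff, h, mul_zero]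

/-- translation of the second event -/
lemma iff2 (R : J → J → ZMod 2) :
    GdF (Sum.elim tU tJ + Sum.elim gU gJ + Sum.elim hU hJ)
      (NN (MM tU tJ A B 0) (Sum.elim tU tJ) (Sum.elim tU tJ) (Sum.elim tU tJ + Sum.elim gU gJ)) R ↔
      E2 (U ⊕ J) univ (MM tU tJ A B R) (Sum.elim tU tJ) (Sum.elim gU gJ) (Sum.elim hU hJ) := by
  unfold GdF E2
  refine forall_congr' fun x => ?_
  rw [cst_iff']
  have e1 : ∑ l, (Sum.elim tU tJ + Sum.elim gU gJ + Sum.elim hU hJ) l * x l =
      dt univ (Sum.elim tU tJ) x + dt univ (Sum.elim gU gJ) x + dt univ (Sum.elim hU hJ) x := by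
    rw [← dt_add, ← dt_add]
    rfl
  rw [e1]
  refine forall_congr' fun h => ?_
  have e2 : (∀ k, rowG (NN (MM tU tJ A B 0) (Sum.elim tU tJ) (Sum.elim tU tJ)
      (Sum.elim tU tJ + Sum.elim gU gJ)) R x k = 0) ↔
      ∀ p ∈ (univ : Finset (U ⊕ J)), Lp univ (MM tU tJ A B R) x p +
        Sum.elim tU tJ p * dt univ (Sum.elim tU tJ) x + Sum.elim tU tJ p * x p +
        Sum.elim tU tJ p * dt univ (Sum.elim gU gJ) x = 0 := by
    simp only [mem_univ, true_imp_iff]
    refine forall_congr' fun p => ?_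
    rw [rowG_NN, dt_add]
    constructor
    · intro h
      linear_combination h
    · intro h
      linear_combination h
  rw [e2]

end

theorem t_L12 : Pool.Agent.N848.SK.S_L12 := by
  intro hL
  constructor
  · intro ε hε
    obtain ⟨V, hV⟩ := hL ε hε
    refine ⟨V, ?_⟩
    intro U J _ _ _ tU gU hU tJ gJ hJ A B hcard h0 hg hh hA hnd
    have h := hV U J (Sum.elim tU tJ)
      (NN (MM tU tJ A B 0) 0 (Sum.elim gU gJ) (Sum.elim tU tJ)) tJ gJ tJ hcard
      (hypF1 tU gU tJ gJ hJ A B h0 hg hA hnd)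
    have e : (univ.filter fun α : prs J → ZMod 2 => GdF (Sum.elim tU tJ)
        (NN (MM tU tJ A B 0) 0 (Sum.elim gU gJ) (Sum.elim tU tJ)) (ext tJ α)) =
        (univ.filter fun α : prs J → ZMod 2 =>
          E1 (U ⊕ J) univ (MM tU tJ A B (ext tJ α)) (Sum.elim tU tJ) (Sum.elim gU gJ)
            (Sum.elim hU hJ)) :=
      filter_congr fun α _ => iff1 tU gU hU tJ gJ hJ A B (ext tJ α)
    rw [e] at h
    exact h
  · intro ε hε
    obtain ⟨V, hV⟩ := hL ε hε
    refine ⟨V, ?_⟩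
    intro U J _ _ _ tU gU hU tJ gJ hJ A B hcard h0 hg hh hA hnd
    have h := hV U J (Sum.elim tU tJ + Sum.elim gU gJ + Sum.elim hU hJ)
      (NN (MM tU tJ A B 0) (Sum.elim tU tJ) (Sum.elim tU tJ) (Sum.elim tU tJ + Sum.elim gU gJ))
      tJ tJ gJ hcard (hypF2 tU gU hU tJ gJ hJ A B h0 hg hh hA hnd)
    have e : (univ.filter fun α : prs J → ZMod 2 =>
        GdF (Sum.elim tU tJ + Sum.elim gU gJ + Sum.elim hU hJ)
        (NN (MM tU tJ A B 0) (Sum.elim tU tJ) (Sum.elim tU tJ) (Sum.elim tU tJ + Sum.elim gU gJ))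
        (ext tJ α)) =
        (univ.filter fun α : prs J → ZMod 2 =>
          E2 (U ⊕ J) univ (MM tU tJ A B (ext tJ α)) (Sum.elim tU tJ) (Sum.elim gU gJ)
            (Sum.elim hU hJ)) :=
      filter_congr fun α _ => iff2 tU gU hU tJ gJ hJ A B (ext tJ α)
    rw [e] at h
    exact h

end Pool.Agent.N82.SK
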